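import Pool.Agent.SPC65.Main

/-!
# The case of a tournament which has itself linear edge expansion
-/

set_option autoImplicit false

namespace SPC65

open Finset Relation

/-- a tournament with linear edge expansion is strongly connected -/
theorem comp_univ {n : ℕ} {R : Fin n → Fin n → Prop} {θ : ℝ} (hθ : 0 < θ)
    (h : ∀ S : Set (Fin n), θ * n * (min S.ncard Sᶜ.ncard : ℕ) ≤
      ({p : Fin n × Fin n | p.1 ∈ S ∧ p.2 ∉ S ∧ R p.1 p.2}.ncard : ℝ)) (v : Fin n) :
    comp R v = Set.univ := by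
  have key : ∀ v u : Fin n, ReflTransGen R v u := by
    intro v
    by_contra hne
    rw [not_forall] at hne
    obtain ⟨u, hu⟩ := hne
    have h1 := h {w | ReflTransGen R v w}
    have h2 : {p : Fin n × Fin n | p.1 ∈ {w | ReflTransGen R v w} ∧ p.2 ∉ {w | ReflTransGen R v w} ∧
        R p.1 p.2} = ∅ := by
      rw [Set.eq_empty_iff_forall_notMem]
      rintro p ⟨h3, h4, h5⟩
      exact h4 (ReflTransGen.tail h3 h5)
    rw [h2, Set.ncard_empty, Nat.cast_zero] at h1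
    have h3 : 0 < ({w | ReflTransGen R v w} : Set (Fin n)).ncard :=
      (Set.ncard_pos (Set.toFinite _)).2 ⟨v, ReflTransGen.refl⟩
    have h4 : 0 < ({w | ReflTransGen R v w}ᶜ : Set (Fin n)).ncard :=
      (Set.ncard_pos (Set.toFinite _)).2 ⟨u, hu⟩
    have hn : 0 < n := by
      have := v.2
      omega
    have h5 : (0 : ℝ) < (min ({w | ReflTransGen R v w} : Set (Fin n)).ncard
        ({w | ReflTransGen R v w}ᶜ : Set (Fin n)).ncard : ℕ) := by
      rw [Nat.cast_pos]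
      exact lt_min h3 h4
    have h6 : (0 : ℝ) < n := by exact_mod_cast hn
    have h7 := mul_pos (mul_pos hθ h6) h5
    linarith
  ext u
  exact ⟨fun _ => Set.mem_univ _, fun _ => ⟨key v u, key u v⟩⟩

/-- The theorem on spanning trees (with a prescribed vertex) is the case of one strong component. -/
theorem span_of {Δ : ℕ} {θ : ℝ} (hθ : 0 < θ) {C : ℕ} (hM : ∀ k n : ℕ, ∀ R : Fin n → Fin n → Prop,
    (∀ a, ¬ R a a) → (∀ a b, a ≠ b → R a b ∨ R b a) → (∀ a b, R a b → ¬ R b a) →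
    (∀ a : Fin n, ∀ S : Set (Fin n), S ⊆ comp R a →
      θ * (comp R a).ncard * (min S.ncard (comp R a \ S).ncard : ℕ) ≤
      ({p : Fin n × Fin n | p.1 ∈ S ∧ p.2 ∈ comp R a \ S ∧ R p.1 p.2}.ncard : ℝ)) →
    k + 1 + min C {a : Fin n | 1 < (comp R a).ncard ∧ (comp R a).ncard < C}.ncard ≤ n →
    ∀ E : Fin (k + 1) → Fin (k + 1) → Prop,
      (∀ a b, E a b → ¬ E b a) →
      (SimpleGraph.fromRel E).IsTree →
      (∀ v, ((SimpleGraph.fromRel E).neighborSet v).ncard ≤ Δ) →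
      ∀ (r : Fin (k + 1)) (v : Fin n), ∃ f : Fin (k + 1) → Fin n, Function.Injective f ∧
        (∀ a b, E a b → R (f a) (f b)) ∧ (comp R v = Set.univ → C ≤ n → f r = v)) :
    ∀ k n : ℕ, C ≤ n → k + 1 ≤ n → ∀ R : Fin n → Fin n → Prop,
    (∀ a, ¬ R a a) → (∀ a b, a ≠ b → R a b ∨ R b a) → (∀ a b, R a b → ¬ R b a) →
    (∀ S : Set (Fin n), θ * n * (min S.ncard Sᶜ.ncard : ℕ) ≤
      ({p : Fin n × Fin n | p.1 ∈ S ∧ p.2 ∉ S ∧ R p.1 p.2}.ncard : ℝ)) →
    ∀ E : Fin (k + 1) → Fin (k + 1) → Prop,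
      (∀ a b, E a b → ¬ E b a) →
      (SimpleGraph.fromRel E).IsTree →
      (∀ v, ((SimpleGraph.fromRel E).neighborSet v).ncard ≤ Δ) →
      ∀ (r : Fin (k + 1)) (v : Fin n),
        ∃ f : Fin (k + 1) → Fin n, Function.Injective f ∧ (∀ a b, E a b → R (f a) (f b)) ∧ f r = v := by
  intro k n hn hk R h1 h2 h3 hexp E hE hT hdeg r v
  have hc : ∀ a : Fin n, comp R a = Set.univ := comp_univ hθ hexp
  have h4 : {a : Fin n | 1 < (comp R a).ncard ∧ (comp R a).ncard < C} = ∅ := by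
    rw [Set.eq_empty_iff_forall_notMem]
    intro a ha
    have ha' : (comp R a).ncard < C := ha.2
    rw [hc a, Set.ncard_univ, Nat.card_fin] at ha'
    omega
  obtain ⟨f, f1, f2, f3⟩ := hM k n R h1 h2 h3 (fun a S _ => by
    rw [hc a, Set.ncard_univ, Nat.card_fin, ← Set.compl_eq_univ_sdiff]
    exact hexp S) (by rw [h4, Set.ncard_empty]; omega) E hE hT hdeg r v
  exact ⟨f, f1, f2, f3 (hc v) hn⟩

/-- the strong components of bounded size have linear edge expansion, so nothing is assumed on them -/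
theorem small_ok {n : ℕ} {R : Fin n → Fin n → Prop} {m : ℕ} {θ : ℝ} (hθ : 0 < θ) (hm : θ * m ^ 2 ≤ 1) (a : Fin n) (ha : (comp R a).ncard ≤ m) (S : Set (Fin n)) (hS : S ⊆ comp R a) :
    θ * (comp R a).ncard * (min S.ncard (comp R a \ S).ncard : ℕ) ≤
      ({p : Fin n × Fin n | p.1 ∈ S ∧ p.2 ∈ comp R a \ S ∧ R p.1 p.2}.ncard : ℝ) := by
  rcases Nat.eq_zero_or_pos (min S.ncard (comp R a \ S).ncard) with h0 | h0
  · rw [h0, Nat.cast_zero, mul_zero]
    exact Nat.cast_nonneg _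
  have hS1 : 0 < S.ncard := lt_of_lt_of_le h0 (min_le_left _ _)
  have hS2 : 0 < (comp R a \ S).ncard := lt_of_lt_of_le h0 (min_le_right _ _)
  obtain ⟨x, hx⟩ := (Set.ncard_pos (Set.toFinite _)).1 hS1
  obtain ⟨y, hy⟩ := (Set.ncard_pos (Set.toFinite _)).1 hS2
  have hxy : ReflTransGen R x y := (hS hx).2.trans hy.1.1
  -- an arc from `S` to the rest of the component
  have key : ∀ z, ReflTransGen R z y → z ∈ S →
      ({p : Fin n × Fin n | p.1 ∈ S ∧ p.2 ∈ comp R a \ S ∧ R p.1 p.2}).Nonempty := by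
    intro z hz
    induction hz using ReflTransGen.head_induction_on with
    | refl => exact fun h => absurd h hy.2
    | @head u w huw hwy ih =>
      intro hu
      by_cases hw : w ∈ S
      · exact ih hw
      · have h5 : w ∈ comp R a := ⟨(hS hu).1.tail huw, hwy.trans hy.1.2⟩
        exact ⟨(u, w), hu, ⟨h5, hw⟩, huw⟩
  have h6 := (Set.ncard_pos (Set.toFinite _)).2 (key x hxy hx)
  have h7 : (1 : ℝ) ≤ ({p : Fin n × Fin n | p.1 ∈ S ∧ p.2 ∈ comp R a \ S ∧ R p.1 p.2}.ncard : ℝ) := by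
    exact_mod_cast h6
  refine le_trans ?_ h7
  have h8 : min S.ncard (comp R a \ S).ncard ≤ m :=
    (min_le_left _ _).trans ((Set.ncard_le_ncard hS (Set.toFinite _)).trans ha)
  have h9 : ((comp R a).ncard : ℝ) ≤ m := by exact_mod_cast ha
  have h10 : ((min S.ncard (comp R a \ S).ncard : ℕ) : ℝ) ≤ m := by exact_mod_cast h8
  calc θ * (comp R a).ncard * (min S.ncard (comp R a \ S).ncard : ℕ) ≤ θ * m * m :=
        mul_le_mul (mul_le_mul_of_nonneg_left h9 hθ.le) h10 (Nat.cast_nonneg _)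
          (mul_nonneg hθ.le (Nat.cast_nonneg _))
    _ = θ * m ^ 2 := by ring
    _ ≤ 1 := hm

end SPC65
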