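import Pool.Agent.SPC65.Pot
import Pool.Agent.AE32.Defs

/-!
# The embedding, one strong component of the tournament after the other
-/

set_option autoImplicit false

namespace SPC65

open Finset Relation
open scoped Classical

variable {V W : Type} {R : V → V → Prop} {E : W → W → Prop}

/-- the part `F` of the tree can be embedded in `X` -/
def Emb (R : V → V → Prop) (E : W → W → Prop) (F : Finset W) (X : Finset V) : Prop :=
  ∃ f : W → V, (∀ w ∈ F, f w ∈ X) ∧ Set.InjOn f (F : Set W) ∧ ∀ a ∈ F, ∀ b ∈ F, E a b → R (f a) (f b)

theorem Emb.mono {F : Finset W} {X X' : Finset V} (h : Emb R E F X) (hX : X ⊆ X') : Emb R E F X' := by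
  obtain ⟨f, h1, h2, h3⟩ := h
  exact ⟨f, fun w hw => hX (h1 w hw), h2, h3⟩

theorem Emb.glue {F F' : Finset W} {K X : Finset V} (h : Upper E F F') (h1 : Emb R E (F \ F') K)
    (h2 : Emb R E F' X) (hd : Disjoint K X) (hK : ∀ x ∈ K, ∀ y ∈ X, R x y) : Emb R E F (K ∪ X) := by
  obtain ⟨f, f1, f2, f3⟩ := h1
  obtain ⟨g, g1, g2, g3⟩ := h2
  have hne : ∀ a ∈ F, a ∉ F' → ∀ b ∈ F', f a ≠ g b := by
    intro a ha ha' b hb hab
    have h4 := f1 a (mem_sdiff.2 ⟨ha, ha'⟩)
    have h5 := g1 b hb
    rw [← hab] at h5
    exact (disjoint_left.1 hd h4) h5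
  refine ⟨fun w => if w ∈ F' then g w else f w, fun w hw => ?_, ?_, ?_⟩
  · by_cases hw' : w ∈ F'
    · simp only [if_pos hw']
      exact mem_union_right _ (g1 w hw')
    · simp only [if_neg hw']
      exact mem_union_left _ (f1 w (mem_sdiff.2 ⟨hw, hw'⟩))
  · intro a ha b hb hab
    rw [mem_coe] at ha hb
    by_cases ha' : a ∈ F'
    · by_cases hb' : b ∈ F'
      · simp only [if_pos ha', if_pos hb'] at hab
        exact g2 ha' hb' hab
      · simp only [if_pos ha', if_neg hb'] at hab
        exact absurd hab.symm (hne b hb hb' a ha')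
    · by_cases hb' : b ∈ F'
      · simp only [if_neg ha', if_pos hb'] at hab
        exact absurd hab (hne a ha ha' b hb')
      · simp only [if_neg ha', if_neg hb'] at hab
        exact f2 (by rw [mem_coe, mem_sdiff]; exact ⟨ha, ha'⟩) (by rw [mem_coe, mem_sdiff]; exact ⟨hb, hb'⟩) hab
  · intro a ha b hb hab
    by_cases ha' : a ∈ F'
    · by_cases hb' : b ∈ F'
      · simp only [if_pos ha', if_pos hb']
        exact g3 a ha' b hb' hab
      · exact absurd ha' (h.2 b hb hb' a ha hab)
    · by_cases hb' : b ∈ F'
      · simp only [if_neg ha', if_pos hb']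
        exact hK _ (f1 a (mem_sdiff.2 ⟨ha, ha'⟩)) _ (g1 b hb')
      · simp only [if_neg ha', if_neg hb']
        exact f3 a (mem_sdiff.2 ⟨ha, ha'⟩) b (mem_sdiff.2 ⟨hb, hb'⟩) hab

theorem exists_inj [Nonempty V] {U : Finset W} {K : Finset V} (h : U.card ≤ K.card) :
    ∃ f : W → V, (∀ w ∈ U, f w ∈ K) ∧ Set.InjOn f (U : Set W) := by
  have h1 : Fintype.card U ≤ Fintype.card K := by simpa using h
  obtain ⟨e⟩ := Function.Embedding.nonempty_of_card_le h1
  refine ⟨fun w => if hw : w ∈ U then e ⟨w, hw⟩ else Classical.arbitrary V, fun w hw => ?_, ?_⟩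
  · simp only [dif_pos hw]
    exact (e ⟨w, hw⟩).2
  · intro a ha b hb hab
    rw [mem_coe] at ha hb
    simp only [dif_pos ha, dif_pos hb] at hab
    have h2 := e.injective (Subtype.ext hab)
    exact congrArg Subtype.val h2

/-- sources are embedded in any set -/
theorem emb_src [Nonempty V] {F U : Finset W} {K : Finset V} (hU : U ⊆ src E F) (h : U.card ≤ K.card) :
    Emb R E U K := by
  obtain ⟨f, h1, h2⟩ := exists_inj h
  refine ⟨f, h1, h2, fun a ha b hb hab => ?_⟩
  have hb' := hU hb
  have ha' := hU ha
  unfold src at ha' hb'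
  rw [mem_filter] at ha' hb'
  have h3 : a ∈ inn E F b := mem_inn.2 ⟨ha'.1, hab⟩
  rw [hb'.2] at h3
  exact absurd h3 (notMem_empty a)

theorem upper_src {F U : Finset W} (hU : U ⊆ src E F) : Upper E F (F \ U) := by
  refine ⟨sdiff_subset, fun v hv hv' u hu huv => ?_⟩
  have hvU : v ∈ U := by
    by_contra h
    exact hv' (mem_sdiff.2 ⟨hv, h⟩)
  have h1 := hU hvU
  unfold src at h1
  rw [mem_filter] at h1
  have h3 : u ∈ inn E F v := mem_inn.2 ⟨hu, huv⟩
  rw [h1.2] at h3
  exact absurd h3 (notMem_empty u)

theorem ham_insert (hT : AE32.Tour R) (a : V) : ∀ l : List V, l.IsChain R → a ∉ l →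
    ∃ l' : List V, l'.Perm (a :: l) ∧ l'.IsChain R ∧ ∀ x ∈ l'.head?, x = a ∨ x ∈ l.head? := by
  intro l
  induction l with
  | nil => exact fun _ _ => ⟨[a], List.Perm.refl _, by simp, by simp⟩
  | cons b t ih =>
    intro hc ha
    rw [List.mem_cons, not_or] at ha
    rw [List.isChain_cons] at hc
    rcases hT.tot a b ha.1 with h1 | h1
    · refine ⟨a :: b :: t, List.Perm.refl _, ?_, by simp⟩
      rw [List.isChain_cons, List.isChain_cons]
      refine ⟨?_, hc⟩
      intro y hy
      simp only [List.head?_cons, Option.mem_some_iff] at hy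
      rw [← hy]
      exact h1
    · obtain ⟨t', t1, t2, t3⟩ := ih hc.2 ha.2
      refine ⟨b :: t', (t1.cons b).trans (List.Perm.swap a b t), ?_, by simp⟩
      rw [List.isChain_cons]
      refine ⟨fun y hy => ?_, t2⟩
      rcases t3 y hy with h2 | h2
      · rw [h2]
        exact h1
      · exact hc.1 y h2

/-- a tournament has a Hamilton path -/
theorem ham (hT : AE32.Tour R) (K : Finset V) : ∃ l : List V, l.Nodup ∧ (∀ x, x ∈ l ↔ x ∈ K) ∧ l.IsChain R := by
  induction K using Finset.induction_on with
  | empty => exact ⟨[], by simp, by simp, by simp⟩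
  | insert a K ha ih =>
    obtain ⟨l, l1, l2, l3⟩ := ih
    have hal : a ∉ l := fun h => ha ((l2 a).1 h)
    obtain ⟨l', k1, k2, -⟩ := ham_insert hT a l l3 hal
    refine ⟨l', ?_, fun x => ?_, k2⟩
    · rw [k1.nodup_iff, List.nodup_cons]
      exact ⟨hal, l1⟩
    · rw [k1.mem_iff, List.mem_cons, mem_insert, l2]

/-- a free directed path is embedded in any set -/
theorem emb_path [Nonempty V] (hT : AE32.Tour R) {ht : W → ℕ} (hht : ∀ a b, E a b → ht a < ht b)
    {F : Finset W} {K : Finset V} {c : ℕ → W} (h1 : ∀ i < K.card, c i ∈ F) (h2 : inn E F (c 0) = ∅)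
    (h3 : ∀ i, i + 1 < K.card → inn E F (c (i + 1)) = {c i}) :
    ((range K.card).image c).card = K.card ∧ Upper E F (F \ (range K.card).image c) ∧
      Emb R E ((range K.card).image c) K := by
  have hstep : ∀ i, i + 1 < K.card → ht (c i) < ht (c (i + 1)) := by
    intro i hi
    have h4 : c i ∈ inn E F (c (i + 1)) := by rw [h3 i hi]; exact mem_singleton_self _
    exact hht _ _ (mem_inn.1 h4).2
  have hlt : ∀ d i, i + (d + 1) < K.card → ht (c i) < ht (c (i + (d + 1))) := by
    intro d
    induction d with
    | zero => exact fun i hi => hstep i hi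
    | succ d ih =>
      intro i hi
      exact (ih i (by omega)).trans (hstep (i + (d + 1)) hi)
  have hinj : Set.InjOn c (range K.card : Set ℕ) := by
    intro i hi j hj hij
    rw [mem_coe, mem_range] at hi hj
    rcases lt_trichotomy i j with h | h | h
    · have := hlt (j - i - 1) i (by omega)
      rw [show i + (j - i - 1 + 1) = j by omega, hij] at this
      exact absurd this (lt_irrefl _)
    · exact h
    · have := hlt (i - j - 1) j (by omega)
      rw [show j + (i - j - 1 + 1) = i by omega, hij] at this
      exact absurd this (lt_irrefl _)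
  refine ⟨?_, ⟨sdiff_subset, ?_⟩, ?_⟩
  · rw [card_image_of_injOn hinj, card_range]
  · intro v hv hv' u hu huv
    have hvU : v ∈ (range K.card).image c := by
      by_contra h
      exact hv' (mem_sdiff.2 ⟨hv, h⟩)
    obtain ⟨i, hi, rfl⟩ := mem_image.1 hvU
    rw [mem_range] at hi
    have h4 : u ∈ inn E F (c i) := mem_inn.2 ⟨hu, huv⟩
    obtain _ | i := i
    · rw [h2] at h4
      exact absurd h4 (notMem_empty u)
    · rw [h3 i hi, mem_singleton] at h4
      rw [mem_sdiff, not_and_not_right]
      intro _
      rw [h4]
      exact mem_image_of_mem c (mem_range.2 (by omega))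
  · obtain ⟨l, l1, l2, l3⟩ := ham hT K
    have hlen : l.length = K.card := by
      have : l.toFinset = K := by
        ext x
        rw [List.mem_toFinset, l2]
      rw [← this, List.toFinset_card_of_nodup l1]
    have hidx : ∀ w ∈ (range K.card).image c, ∃ i, i < K.card ∧ c i = w := by
      intro w hw
      obtain ⟨i, hi, h⟩ := mem_image.1 hw
      exact ⟨i, mem_range.1 hi, h⟩
    choose! idx i1 i2 using hidx
    refine ⟨fun w => (l[idx w]?).getD (Classical.arbitrary V), fun w hw => ?_, ?_, ?_⟩
    · have h4 : idx w < l.length := by rw [hlen]; exact i1 w hw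
      simp only [List.getElem?_eq_getElem h4, Option.getD_some]
      rw [← l2]
      exact List.getElem_mem h4
    · intro a ha b hb hab
      rw [mem_coe] at ha hb
      have h4 : idx a < l.length := by rw [hlen]; exact i1 a ha
      have h5 : idx b < l.length := by rw [hlen]; exact i1 b hb
      simp only [List.getElem?_eq_getElem h4, List.getElem?_eq_getElem h5, Option.getD_some] at hab
      have h6 := (l1.getElem_inj_iff).1 hab
      rw [← i2 a ha, ← i2 b hb, h6]
    · intro a ha b hb hab
      have h4 : idx a < l.length := by rw [hlen]; exact i1 a ha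
      have h5 : idx b < l.length := by rw [hlen]; exact i1 b hb
      simp only [List.getElem?_eq_getElem h4, List.getElem?_eq_getElem h5, Option.getD_some]
      have haF : a ∈ F := by rw [← i2 a ha]; exact h1 _ (i1 a ha)
      have h6 : a ∈ inn E F (c (idx b)) := by
        rw [mem_inn, i2 b hb]
        exact ⟨haF, hab⟩
      have h7 : idx b = idx a + 1 := by
        rcases Nat.eq_zero_or_pos (idx b) with h8 | h8
        · rw [h8, h2] at h6
          exact absurd h6 (notMem_empty a)
        · have h9 : idx b - 1 + 1 = idx b := by omega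
          rw [← h9, h3 (idx b - 1) (by rw [h9]; exact i1 b hb), mem_singleton] at h6
          have h10 : idx a = idx b - 1 := by
            apply hinj
            · rw [mem_coe, mem_range]
              exact i1 a ha
            · rw [mem_coe, mem_range]
              have := i1 b hb
              omega
            · rw [i2 a ha, h6]
          omega
      have h8 : idx a + 1 < l.length := by omega
      have h9 := l3.getElem (idx a) h8
      simp only [h7]
      exact h9

/-- an upper part of any size -/
theorem exists_upper {ht : W → ℕ} (hht : ∀ a b, E a b → ht a < ht b) (F : Finset W) (j : ℕ) (hj : j ≤ F.card) :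
    ∃ F', Upper E F F' ∧ (F \ F').card = j := by
  induction j with
  | zero => exact ⟨F, ⟨Subset.refl _, fun v hv hv' => absurd hv hv'⟩, by simp⟩
  | succ j ih =>
    obtain ⟨F', h1, h2⟩ := ih (by omega)
    have h3 : F'.Nonempty := by
      rw [← card_pos]
      have := card_sdiff_add_card_eq_card h1.1
      omega
    obtain ⟨v, hv, hmin⟩ := exists_min_image F' ht h3
    refine ⟨F'.erase v, ⟨(erase_subset v F').trans h1.1, fun w hw hw' u hu huw => ?_⟩, ?_⟩
    · by_cases hwF : w ∈ F'
      · have hwv : w = v := by
          by_contra h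
          exact hw' (mem_erase.2 ⟨h, hwF⟩)
        subst hwv
        intro h4
        have h5 := hmin u (mem_of_mem_erase h4)
        exact absurd (hht u w huw) (not_lt.2 h5)
      · intro h4
        exact h1.2 w hw hwF u hu huw (mem_of_mem_erase h4)
    · have h4 : F \ F'.erase v = insert v (F \ F') := by
        ext x
        rw [mem_sdiff, mem_erase, mem_insert, mem_sdiff]
        constructor
        · rintro ⟨h5, h6⟩
          by_cases hx : x = v
          · exact Or.inl hx
          · exact Or.inr ⟨h5, fun h7 => h6 ⟨hx, h7⟩⟩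
        · rintro (rfl | ⟨h5, h6⟩)
          · exact ⟨h1.1 hv, fun h7 => h7.1 rfl⟩
          · exact ⟨h5, fun h7 => h6 h7.2⟩
      rw [h4, card_insert_of_notMem (by rw [mem_sdiff]; exact fun h5 => h5.2 hv), h2]

variable [Fintype V]

/-- a component -/
noncomputable def KK (lev : V → ℕ) (m : ℕ) : Finset V := univ.filter (fun v => lev v = m)

/-- the rest of the tournament -/
noncomputable def XX (lev : V → ℕ) (m : ℕ) : Finset V := univ.filter (fun v => m ≤ lev v)

/-- the number of the vertices of the rest which lie in small components with more than one vertex -/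
noncomputable def sm (lev : V → ℕ) (N m : ℕ) : ℕ :=
  ((XX lev m).filter (fun v => 1 < (KK lev (lev v)).card ∧ (KK lev (lev v)).card < N)).card

theorem XX_succ (lev : V → ℕ) (m : ℕ) : XX lev m = KK lev m ∪ XX lev (m + 1) := by
  ext v
  simp only [XX, KK, mem_union, mem_filter, mem_univ, true_and]
  omega

theorem KX_disj (lev : V → ℕ) (m : ℕ) : Disjoint (KK lev m) (XX lev (m + 1)) := by
  rw [disjoint_left]
  intro v h1 h2
  simp only [XX, KK, mem_filter, mem_univ, true_and] at h1 h2
  omega

theorem sm_succ (lev : V → ℕ) (N m : ℕ) :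
    sm lev N m = sm lev N (m + 1) + if 1 < (KK lev m).card ∧ (KK lev m).card < N then (KK lev m).card else 0 := by
  unfold sm
  rw [XX_succ, filter_union, card_union_of_disjoint (disjoint_filter_filter (KX_disj lev m)), add_comm]
  congr 1
  by_cases h : 1 < (KK lev m).card ∧ (KK lev m).card < N
  · rw [if_pos h, filter_true_of_mem]
    intro v hv
    simp only [KK, mem_filter, mem_univ, true_and] at hv
    rw [hv]
    exact h
  · rw [if_neg h, filter_false_of_mem, card_empty]
    intro v hv
    simp only [KK, mem_filter, mem_univ, true_and] at hv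
    rw [hv]
    exact h

/-- **The embedding.** -/
theorem core [Nonempty V] [Finite W] (hT : AE32.Tour R) {lev : V → ℕ} (hlev : ∀ x y, lev x < lev y → R x y)
    {N Δ : ℕ} (hE : ∀ a b, E a b → ¬ E b a) (hG : (SimpleGraph.fromRel E).IsAcyclic)
    (hout : ∀ u, ∀ S : Finset W, (∀ v ∈ S, E u v) → S.card ≤ Δ)
    (hbig : ∀ m, (KK lev m).card < N ∨ ∀ U : Finset W, U.card ≤ (KK lev m).card → Emb R E U (KK lev m)) {M : ℕ}
    (hM : ∀ v, lev v < M) : ∀ t m : ℕ, m + t = M → ∀ F : Finset W,
      F.card + min (N * Phi E N (N * (N * (Δ + 1) ^ N)) F) (sm lev N m) ≤ (XX lev m).card → Emb R E F (XX lev m) := by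
  obtain ⟨ht, hht⟩ := exists_ht hE hG
  obtain ⟨L, hL⟩ : ∃ L, L = N * (N * (Δ + 1) ^ N) := ⟨_, rfl⟩
  rw [← hL]
  intro t
  induction t with
  | zero =>
    intro m hm F hF
    have h1 : XX lev m = ∅ := by
      unfold XX
      rw [filter_eq_empty_iff]
      intro v _
      have := hM v
      omega
    rw [h1, card_empty] at hF
    have h2 : F = ∅ := by
      rw [← card_eq_zero]
      omega
    subst h2
    exact ⟨fun _ => Classical.arbitrary V, by simp, by simp, by simp⟩
  | succ t ih =>
    intro m hm F hF
    have ih' := ih (m + 1) (by omega)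
    have hX := XX_succ lev m
    have hd := KX_disj lev m
    have hc : (XX lev m).card = (KK lev m).card + (XX lev (m + 1)).card := by
      rw [hX, card_union_of_disjoint hd]
    have hs := sm_succ lev N m
    have hK : ∀ x ∈ KK lev m, ∀ y ∈ XX lev (m + 1), R x y := by
      intro x hx y hy
      simp only [XX, KK, mem_filter, mem_univ, true_and] at hx hy
      exact hlev x y (by omega)
    rcases F.eq_empty_or_nonempty with hF0 | hF0
    · subst hF0
      exact ⟨fun _ => Classical.arbitrary V, by simp, by simp, by simp⟩
    by_cases hsmall : (KK lev m).card < N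
    · have hs1 : sm lev N m = sm lev N (m + 1) ∨ (1 < (KK lev m).card ∧
          sm lev N m = sm lev N (m + 1) + (KK lev m).card) := by
        by_cases h1 : 1 < (KK lev m).card
        · rw [if_pos ⟨h1, hsmall⟩] at hs
          exact Or.inr ⟨h1, hs⟩
        · rw [if_neg (fun h => h1 h.1), add_zero] at hs
          exact Or.inl hs
      have hs2 : 1 < (KK lev m).card → sm lev N m = sm lev N (m + 1) + (KK lev m).card := by
        intro h1
        rw [if_pos ⟨h1, hsmall⟩] at hs
        exact hs
      rcases Nat.eq_zero_or_pos (KK lev m).card with h0 | h0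
      · rw [card_eq_zero] at h0
        rw [hX, h0, empty_union]
        apply ih'
        rw [h0, card_empty] at hc hs1
        omega
      · by_cases h1 : (KK lev m).card ≤ (src E F).card
        · obtain ⟨U, hU1, hU2⟩ := exists_subset_card_eq h1
          have hUF : U ⊆ F := hU1.trans (filter_subset _ _)
          have hup := upper_src hU1
          rw [hX]
          refine Emb.glue hup ?_ (ih' _ ?_) hd hK
          · rw [Finset.sdiff_sdiff_eq_self hUF]
            exact emb_src hU1 hU2.le
          · have h2 : (F \ U).card + U.card = F.card := card_sdiff_add_card_eq_card hUF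
            have h3 := Nat.mul_le_mul_left N (Phi_mono hht (N := N) (L := L) hup)
            omega
        · have h2 := mu_lt hE hG hF0
          have hs3 := hs2 (by omega)
          rcases path_or (F := F) (N := N) (h := (KK lev m).card) hout h0 hsmall.le (by omega) with
            ⟨c, c1, c2, c3⟩ | hfew
          · obtain ⟨p1, p2, p3⟩ := emb_path hT hht c1 c2 c3
            obtain ⟨U, hU⟩ : ∃ U, U = (range (KK lev m).card).image c := ⟨_, rfl⟩
            rw [← hU] at p1 p2 p3
            have hUF : U ⊆ F := by
              rw [hU]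
              intro v hv
              obtain ⟨i, hi, rfl⟩ := mem_image.1 hv
              exact c1 i (mem_range.1 hi)
            rw [hX]
            refine Emb.glue p2 ?_ (ih' _ ?_) hd hK
            · rw [Finset.sdiff_sdiff_eq_self hUF]
              exact p3
            · have h3 : (F \ U).card + U.card = F.card := card_sdiff_add_card_eq_card hUF
              have h4 := Nat.mul_le_mul_left N (Phi_mono hht (N := N) (L := L) p2)
              omega
          · obtain ⟨u, hu⟩ : (src E F).Nonempty := by
              rw [← card_pos]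
              omega
            have huF : u ∈ F := (mem_filter.1 hu).1
            have h3 := Phi_erase hht (N := N) (L := L) (by omega) (by rw [hL]; exact hfew) hu
            have h4 := Nat.mul_le_mul_left N h3
            rw [Nat.mul_add, Nat.mul_one] at h4
            have hFc := card_erase_of_mem huF
            rw [hX]
            refine Emb.glue (upper_erase hu) ?_ (ih' _ ?_) hd hK
            · have h5 : F \ F.erase u = {u} := by
                ext x
                rw [mem_sdiff, mem_erase, mem_singleton]
                constructor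
                · rintro ⟨h6, h7⟩
                  by_contra h8
                  exact h7 ⟨h8, h6⟩
                · rintro rfl
                  exact ⟨huF, fun h => h.1 rfl⟩
              rw [h5]
              exact emb_src (singleton_subset_iff.2 hu) (by rw [card_singleton]; exact h0)
            · omega
    · rw [if_neg (fun h => hsmall h.2)] at hs
      have hb := (hbig m).resolve_left hsmall
      by_cases h1 : F.card ≤ (KK lev m).card
      · exact (hb F h1).mono (by rw [hX]; exact subset_union_left)
      · obtain ⟨F', hF1, hF2⟩ := exists_upper hht F (KK lev m).card (by omega)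
        rw [hX]
        refine Emb.glue hF1 (hb _ hF2.le) (ih' _ ?_) hd hK
        have h2 := card_sdiff_add_card_eq_card hF1.1
        have h3 := Nat.mul_le_mul_left N (Phi_mono hht (N := N) (L := L) hF1)
        omega

end SPC65
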