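import Mathlib

/-!
# Forests: completion to a tree of bounded degree, directed paths, number of arcs
-/

set_option autoImplicit false

namespace SPC65

open Finset Relation
open scoped Classical

variable {W : Type}

/-- in an oriented forest no directed path leads back along an arc -/
theorem no_back {E : W → W → Prop} (hE : ∀ a b, E a b → ¬ E b a)
    (hG : (SimpleGraph.fromRel E).IsAcyclic) {a b : W} (hab : E a b) : ¬ ReflTransGen E b a := by
  intro h
  have hne : a ≠ b := by
    rintro rfl
    exact hE _ _ hab hab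
  have hadj : (SimpleGraph.fromRel E).Adj a b := by
    rw [SimpleGraph.fromRel_adj]
    exact ⟨hne, Or.inl hab⟩
  have hbr := SimpleGraph.isAcyclic_iff_forall_adj_isBridge.1 hG hadj
  rw [SimpleGraph.isBridge_iff] at hbr
  apply hbr
  have key : ∀ x, ReflTransGen E x a →
      ((SimpleGraph.fromRel E).deleteEdges {s(a, b)}).Reachable x a := by
    intro x hx
    induction hx using ReflTransGen.head_induction_on with
    | refl => exact SimpleGraph.Reachable.refl _
    | @head x y hxy _ ih =>
      by_cases hxa : x = a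
      · subst hxa
        exact SimpleGraph.Reachable.refl _
      · have h1 : ((SimpleGraph.fromRel E).deleteEdges {s(a, b)}).Adj x y := by
          rw [SimpleGraph.deleteEdges_adj, SimpleGraph.fromRel_adj]
          refine ⟨⟨?_, Or.inl hxy⟩, ?_⟩
          · rintro rfl
            exact hE _ _ hxy hxy
          · rw [Set.mem_singleton_iff, Sym2.eq_iff]
            rintro (⟨h2, _⟩ | ⟨h2, h3⟩)
            · exact hxa h2
            · subst h2
              subst h3
              exact hE _ _ hab hxy
        exact h1.reachable.trans ih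
  exact (key b h).symm

/-- a height function -/
theorem exists_ht [Finite W] {E : W → W → Prop} (hE : ∀ a b, E a b → ¬ E b a)
    (hG : (SimpleGraph.fromRel E).IsAcyclic) : ∃ ht : W → ℕ, ∀ a b, E a b → ht a < ht b := by
  have := Fintype.ofFinite W
  refine ⟨fun v => (univ.filter (fun u => ReflTransGen E u v)).card, fun a b hab => ?_⟩
  apply card_lt_card
  refine ⟨fun u hu => ?_, fun h => ?_⟩
  · rw [mem_filter] at hu ⊢
    exact ⟨mem_univ _, hu.2.tail hab⟩
  · have h1 : b ∈ univ.filter (fun u => ReflTransGen E u b) := by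
      rw [mem_filter]
      exact ⟨mem_univ _, ReflTransGen.refl⟩
    have h2 := h h1
    rw [mem_filter] at h2
    exact no_back hE hG hab h2.2

/-- a component of a finite forest has a vertex of degree at most one -/
theorem exists_low [Finite W] {G : SimpleGraph W} (hG : G.IsAcyclic) (u : W) :
    ∃ v, G.Reachable u v ∧ (G.neighborSet v).ncard ≤ 1 := by
  have := Fintype.ofFinite W
  obtain ⟨c, hc⟩ : ∃ c, c = G.connectedComponentMk u := ⟨_, rfl⟩
  have hT : c.toSimpleGraph.IsTree := hG.isTree_connectedComponent c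
  have huc : u ∈ c.supp := by
    rw [SimpleGraph.ConnectedComponent.mem_supp_iff, hc]
  by_cases hn : Nontrivial c
  · obtain ⟨v, hv⟩ := hT.exists_vert_degree_one_of_nontrivial
    refine ⟨v.1, ?_, ?_⟩
    · have h1 : v.1 ∈ c.supp := v.2
      exact c.reachable_of_mem_supp huc h1
    · have h1 : G.neighborSet v.1 ⊆ Subtype.val '' (c.toSimpleGraph.neighborSet v) := by
        intro w hw
        have hw' : G.Adj v.1 w := hw
        have h2 : w ∈ c.supp := by
          have h3 : v.1 ∈ c.supp := v.2
          rw [SimpleGraph.ConnectedComponent.mem_supp_iff] at h3 ⊢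
          rw [← h3]
          exact SimpleGraph.ConnectedComponent.sound hw'.symm.reachable
        refine ⟨⟨w, h2⟩, ?_, rfl⟩
        rw [SimpleGraph.mem_neighborSet]
        exact (c.toSimpleGraph_adj v.2 h2).2 hw'
      refine (Set.ncard_le_ncard h1 (Set.toFinite _)).trans ?_
      refine (Set.ncard_image_le (Set.toFinite _)).trans ?_
      rw [← hv, SimpleGraph.degree, ← Set.ncard_coe_finset, SimpleGraph.coe_neighborFinset]
  · rw [not_nontrivial_iff_subsingleton] at hn
    refine ⟨u, SimpleGraph.Reachable.refl _, ?_⟩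
    have h1 : G.neighborSet u = ∅ := by
      rw [Set.eq_empty_iff_forall_notMem]
      intro w hw
      have hw' : G.Adj u w := hw
      have h2 : w ∈ c.supp := by
        rw [SimpleGraph.ConnectedComponent.mem_supp_iff, hc]
        exact SimpleGraph.ConnectedComponent.sound hw'.symm.reachable
      have h3 : (⟨u, huc⟩ : c) = ⟨w, h2⟩ := Subsingleton.elim _ _
      rw [Subtype.mk.injEq] at h3
      exact hw'.ne h3
    rw [h1, Set.ncard_empty]
    exact Nat.zero_le _

/-- the number of neighbours after adding an edge -/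
theorem ncard_sup_edge [Finite W] (G : SimpleGraph W) (u v x : W) :
    ((G ⊔ SimpleGraph.edge u v).neighborSet x).ncard ≤
      (G.neighborSet x).ncard + (if x = u ∨ x = v then 1 else 0) := by
  by_cases hx : x = u ∨ x = v
  · rw [if_pos hx]
    obtain ⟨y, hy⟩ : ∃ y, ∀ w, (SimpleGraph.edge u v).Adj x w → w = y := by
      rcases hx with rfl | rfl
      · refine ⟨v, fun w hw => ?_⟩
        rw [SimpleGraph.edge_adj] at hw
        rcases hw with ⟨⟨_, h⟩ | ⟨h1, h2⟩, h3⟩
        · exact h
        · rw [h2] at h3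
          exact absurd rfl h3
      · refine ⟨u, fun w hw => ?_⟩
        rw [SimpleGraph.edge_adj] at hw
        rcases hw with ⟨⟨h1, h2⟩ | ⟨_, h⟩, h3⟩
        · rw [h2] at h3
          exact absurd rfl h3
        · exact h
    have h1 : (G ⊔ SimpleGraph.edge u v).neighborSet x ⊆ insert y (G.neighborSet x) := by
      intro w hw
      rw [SimpleGraph.mem_neighborSet, SimpleGraph.sup_adj] at hw
      rcases hw with hw | hw
      · exact Or.inr hw
      · exact Or.inl (hy w hw)
    exact (Set.ncard_le_ncard h1 (Set.toFinite _)).trans (Set.ncard_insert_le _ _)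
  · rw [if_neg hx, add_zero]
    apply Set.ncard_le_ncard _ (Set.toFinite _)
    intro w hw
    rw [SimpleGraph.mem_neighborSet, SimpleGraph.sup_adj] at hw
    rcases hw with hw | hw
    · exact hw
    · rw [SimpleGraph.edge_adj] at hw
      exfalso
      apply hx
      rcases hw with ⟨⟨h, _⟩ | ⟨h, _⟩, _⟩
      · exact Or.inl h
      · exact Or.inr h

/-- **Completion of a forest to a tree without large degrees.** -/
theorem complete [Finite W] [Nonempty W] {G : SimpleGraph W} (hG : G.IsAcyclic) {D : ℕ}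
    (hD : 2 ≤ D) (hdeg : ∀ v, (G.neighborSet v).ncard ≤ D) :
    ∃ G' : SimpleGraph W, G ≤ G' ∧ G'.IsTree ∧ ∀ v, (G'.neighborSet v).ncard ≤ D := by
  obtain ⟨M, ⟨hM1, hM2, hM3⟩, hMmax⟩ := Set.Finite.exists_maximalFor id
    {G' : SimpleGraph W | G ≤ G' ∧ G'.IsAcyclic ∧ ∀ v, (G'.neighborSet v).ncard ≤ D}
    (Set.toFinite _) ⟨G, le_rfl, hG, hdeg⟩
  refine ⟨M, hM1, ?_, hM3⟩
  have hconn : M.Connected := by
    rw [SimpleGraph.connected_iff]
    refine ⟨?_, inferInstance⟩
    intro u v
    by_contra huv
    obtain ⟨u', hu1, hu2⟩ := exists_low hM2 u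
    obtain ⟨v', hv1, hv2⟩ := exists_low hM2 v
    have huv' : ¬ M.Reachable u' v' := fun h => huv ((hu1.trans h).trans hv1.symm)
    have hne : u' ≠ v' := by
      rintro h
      rw [h] at huv'
      exact huv' (SimpleGraph.Reachable.refl _)
    have h1 : (M ⊔ SimpleGraph.edge u' v').IsAcyclic := hM2.sup_edge_of_not_reachable huv'
    have h2 : ∀ x, ((M ⊔ SimpleGraph.edge u' v').neighborSet x).ncard ≤ D := by
      intro x
      refine (ncard_sup_edge M u' v' x).trans ?_
      by_cases hx : x = u' ∨ x = v'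
      · rw [if_pos hx]
        rcases hx with rfl | rfl
        · omega
        · omega
      · rw [if_neg hx, add_zero]
        exact hM3 x
    have h3 : (M ⊔ SimpleGraph.edge u' v') ≤ M :=
      hMmax ⟨hM1.trans le_sup_left, h1, h2⟩ le_sup_left
    have h4 : M.Adj u' v' := h3 (by
      rw [SimpleGraph.sup_adj, SimpleGraph.edge_adj]
      exact Or.inr ⟨Or.inl ⟨rfl, rfl⟩, hne⟩)
    exact huv' h4.reachable
  exact ⟨hconn, hM2⟩

/-- the number of arcs in a nonempty finite set of vertices of a forest -/
theorem arcs_lt {E : W → W → Prop} (hE : ∀ a b, E a b → ¬ E b a)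
    (hG : (SimpleGraph.fromRel E).IsAcyclic) {F : Finset W} (hF : F.Nonempty) :
    ∑ v ∈ F, (F.filter (fun u => E u v)).card + 1 ≤ F.card := by
  have hne : Nonempty F := ⟨⟨hF.choose, hF.choose_spec⟩⟩
  have h1 : ((SimpleGraph.fromRel E).induce (F : Set W)).IsAcyclic := hG.induce _
  have hne' : Nonempty (F : Set W) := ⟨⟨hF.choose, hF.choose_spec⟩⟩
  obtain ⟨T, hT1, -, hT⟩ := (SimpleGraph.connected_top (V := (F : Set W))).exists_isTree_le_of_le_of_isAcyclic
    (H := (SimpleGraph.fromRel E).induce (F : Set W)) le_top h1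
  have h2 := hT.card_edgeFinset
  have h3 : Fintype.card (F : Set W) = F.card := by simp
  rw [h3] at h2
  rw [← h2]
  apply Nat.add_le_add_right
  -- the arcs are edges of `T`
  obtain ⟨A, hA⟩ : ∃ A : Finset (W × W), A = (F ×ˢ F).filter (fun p => E p.2 p.1) := ⟨_, rfl⟩
  have h4 : ∑ v ∈ F, (F.filter (fun u => E u v)).card = A.card := by
    rw [hA, card_filter, sum_product]
    refine sum_congr rfl fun v _ => ?_
    rw [card_filter]
  rw [h4]
  have h5 : ∀ p ∈ A, ∃ e ∈ T.edgeFinset, e.map Subtype.val = s(p.1, p.2) := by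
    intro p hp
    rw [hA, mem_filter, mem_product] at hp
    refine ⟨s(⟨p.1, hp.1.1⟩, ⟨p.2, hp.1.2⟩), ?_, rfl⟩
    rw [SimpleGraph.mem_edgeFinset, SimpleGraph.mem_edgeSet]
    apply hT1
    rw [SimpleGraph.comap_adj]
    show (SimpleGraph.fromRel E).Adj p.1 p.2
    rw [SimpleGraph.fromRel_adj]
    refine ⟨?_, Or.inr hp.2⟩
    intro h
    rw [h] at hp
    exact hE _ _ hp.2 hp.2
  have hne2 : Nonempty (Sym2 (F : Set W)) := ⟨s(hne'.some, hne'.some)⟩
  choose! φ hφ1 hφ2 using h5
  apply card_le_card_of_injOn φ (fun p hp => hφ1 p hp)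
  intro p hp q hq hpq
  have h6 := hφ2 p hp
  have h7 := hφ2 q hq
  rw [hpq, h7, Sym2.eq_iff] at h6
  rcases h6 with ⟨e1, e2⟩ | ⟨e1, e2⟩
  · exact Prod.ext e1.symm e2.symm
  · exfalso
    rw [mem_coe, hA, mem_filter] at hp hq
    rw [e1, e2] at hq
    exact hE _ _ hp.2 hq.2

/-- the image of a forest is a forest -/
theorem map_acyclic {W' : Type} {G : SimpleGraph W} (hG : G.IsAcyclic) (f : W ↪ W') :
    (G.map f).IsAcyclic := by
  rw [SimpleGraph.isAcyclic_iff_forall_adj_isBridge]
  rintro x y hxy
  rw [SimpleGraph.map_adj] at hxy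
  obtain ⟨a, b, hab, rfl, rfl⟩ := hxy
  rw [SimpleGraph.isBridge_iff]
  intro h
  have hbr := SimpleGraph.isAcyclic_iff_forall_adj_isBridge.1 hG hab
  rw [SimpleGraph.isBridge_iff] at hbr
  apply hbr
  rw [SimpleGraph.reachable_iff_reflTransGen] at h
  have key : ∀ z, ReflTransGen ((G.map f).deleteEdges {s(f a, f b)}).Adj (f a) z →
      ∃ c, z = f c ∧ (G.deleteEdges {s(a, b)}).Reachable a c := by
    intro z hz
    induction hz with
    | refl => exact ⟨a, rfl, SimpleGraph.Reachable.refl _⟩
    | tail _ hyz ih =>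
      obtain ⟨c, rfl, hc⟩ := ih
      rw [SimpleGraph.deleteEdges_adj, SimpleGraph.map_adj] at hyz
      obtain ⟨⟨c', d, hcd, h1, rfl⟩, h2⟩ := hyz
      have h3 := f.injective h1
      subst h3
      refine ⟨d, rfl, hc.trans ?_⟩
      apply SimpleGraph.Adj.reachable
      rw [SimpleGraph.deleteEdges_adj]
      refine ⟨hcd, fun h4 => h2 ?_⟩
      rw [Set.mem_singleton_iff] at h4 ⊢
      have h5 := congrArg (Sym2.map f) h4
      simpa using h5
  obtain ⟨c, hc1, hc2⟩ := key _ h
  have h6 := f.injective hc1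
  subst h6
  exact hc2

end SPC65
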