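import Pool.Agent.SPC65.Core

/-!
# Tournaments all of whose strong components have linear edge expansion
-/

set_option autoImplicit false

namespace SPC65

open Finset Relation
open scoped Classical

/-- the strong component of `v` -/
def comp {n : ℕ} (R : Fin n → Fin n → Prop) (v : Fin n) : Set (Fin n) :=
  {u | ReflTransGen R v u ∧ ReflTransGen R u v}

/-- the theorem on spanning trees: the hypothesis -/
def SpanSt : Prop := ∀ (Δ : ℕ) (θ : ℝ), 0 < θ → ∃ n₀ : ℕ, ∀ k n : ℕ, n₀ ≤ n → k + 1 ≤ n →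
    ∀ R : Fin n → Fin n → Prop,
    (∀ a, ¬ R a a) → (∀ a b, a ≠ b → R a b ∨ R b a) → (∀ a b, R a b → ¬ R b a) →
    (∀ S : Set (Fin n), θ * n * (min S.ncard Sᶜ.ncard : ℕ) ≤
      ({p : Fin n × Fin n | p.1 ∈ S ∧ p.2 ∉ S ∧ R p.1 p.2}.ncard : ℝ)) →
    ∀ E : Fin (k + 1) → Fin (k + 1) → Prop,
      (∀ a b, E a b → ¬ E b a) →
      (SimpleGraph.fromRel E).IsTree →
      (∀ v, ((SimpleGraph.fromRel E).neighborSet v).ncard ≤ Δ) →
      ∀ (r : Fin (k + 1)) (v : Fin n),
        ∃ f : Fin (k + 1) → Fin n, Function.Injective f ∧ (∀ a b, E a b → R (f a) (f b)) ∧ f r = v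

section lev

variable {n : ℕ} {R : Fin n → Fin n → Prop}

/-- the vertices which are reached from `v` -/
noncomputable def rset (R : Fin n → Fin n → Prop) (v : Fin n) : Finset (Fin n) := univ.filter (fun u => ReflTransGen R v u)

/-- the level of a vertex: the vertices of a strong component have the same level, and the arcs go up -/
noncomputable def lev (R : Fin n → Fin n → Prop) (v : Fin n) : ℕ := n - (rset R v).card

theorem mem_rset {v u : Fin n} : u ∈ rset R v ↔ ReflTransGen R v u := by simp [rset]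

theorem rset_sub {v u : Fin n} (h : ReflTransGen R v u) : rset R u ⊆ rset R v := by
  intro w hw
  rw [mem_rset] at hw ⊢
  exact h.trans hw

theorem rset_le (v : Fin n) : (rset R v).card ≤ n := by
  have := card_le_univ (rset R v)
  rwa [Fintype.card_fin] at this

theorem lev_le {v u : Fin n} (h : ReflTransGen R v u) : lev R v ≤ lev R u := by
  have := card_le_card (rset_sub h)
  unfold lev
  omega

theorem lev_lt {v u : Fin n} (h : ReflTransGen R v u) (h' : ¬ ReflTransGen R u v) : lev R v < lev R u := by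
  have h1 : rset R u ⊂ rset R v := by
    refine ⟨rset_sub h, fun h2 => h' ?_⟩
    exact mem_rset.1 (h2 (mem_rset.2 ReflTransGen.refl))
  have h2 := card_lt_card h1
  have h3 := rset_le (R := R) v
  unfold lev
  omega

theorem lev_arc (h2 : ∀ a b, a ≠ b → R a b ∨ R b a) {x y : Fin n} (h : lev R x < lev R y) : R x y := by
  have hne : x ≠ y := by
    rintro rfl
    exact lt_irrefl _ h
  rcases h2 x y hne with h1 | h1
  · exact h1
  · exact absurd (lev_le (ReflTransGen.single h1)) (not_le.2 h)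

theorem lev_eq_iff (h2 : ∀ a b, a ≠ b → R a b ∨ R b a) {x y : Fin n} : lev R y = lev R x ↔ y ∈ comp R x := by
  constructor
  · intro h
    by_cases hxy : x = y
    · subst hxy
      exact ⟨ReflTransGen.refl, ReflTransGen.refl⟩
    · rcases h2 x y hxy with h1 | h1
      · refine ⟨ReflTransGen.single h1, ?_⟩
        by_contra h3
        have := lev_lt (ReflTransGen.single h1) h3
        omega
      · refine ⟨?_, ReflTransGen.single h1⟩
        by_contra h3
        have := lev_lt (ReflTransGen.single h1) h3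
        omega
  · rintro ⟨h3, h4⟩
    exact le_antisymm (lev_le h4) (lev_le h3)

theorem coe_KK (h2 : ∀ a b, a ≠ b → R a b ∨ R b a) (a : Fin n) :
    ((KK (lev R) (lev R a) : Finset (Fin n)) : Set (Fin n)) = comp R a := by
  ext v
  simp only [KK, coe_filter, mem_univ, true_and, Set.mem_ofPred_eq]
  exact lev_eq_iff h2

theorem card_KK (h2 : ∀ a b, a ≠ b → R a b ∨ R b a) (a : Fin n) :
    (KK (lev R) (lev R a)).card = (comp R a).ncard := by
  rw [← coe_KK h2, Set.ncard_coe_finset]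

end lev

/-- completion of an oriented forest to an oriented tree -/
theorem complete_or {u D : ℕ} (hD : 2 ≤ D) {E : Fin (u + 1) → Fin (u + 1) → Prop} (hE : ∀ a b, E a b → ¬ E b a)
    (hG : (SimpleGraph.fromRel E).IsAcyclic) (hdeg : ∀ v, ((SimpleGraph.fromRel E).neighborSet v).ncard ≤ D) :
    ∃ E' : Fin (u + 1) → Fin (u + 1) → Prop, (∀ a b, E a b → E' a b) ∧ (∀ a b, E' a b → ¬ E' b a) ∧
      (SimpleGraph.fromRel E').IsTree ∧ ∀ v, ((SimpleGraph.fromRel E').neighborSet v).ncard ≤ D := by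
  obtain ⟨G, h1, h2, h3⟩ := complete hG hD hdeg
  have hadj : ∀ a b, E a b → (SimpleGraph.fromRel E).Adj a b := by
    intro a b hab
    rw [SimpleGraph.fromRel_adj]
    refine ⟨?_, Or.inl hab⟩
    rintro rfl
    exact hE _ _ hab hab
  obtain ⟨E', hE'⟩ : ∃ E' : Fin (u + 1) → Fin (u + 1) → Prop,
      E' = fun a b => E a b ∨ (G.Adj a b ∧ ¬ (SimpleGraph.fromRel E).Adj a b ∧ a < b) := ⟨_, rfl⟩
  have hEq : SimpleGraph.fromRel E' = G := by
    ext a b
    rw [SimpleGraph.fromRel_adj, hE']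
    constructor
    · rintro ⟨_, (h | h) | (h | h)⟩
      · exact h1 (hadj a b h)
      · exact h.1
      · exact (h1 (hadj b a h)).symm
      · exact h.1.symm
    · intro h
      refine ⟨h.ne, ?_⟩
      by_cases h4 : (SimpleGraph.fromRel E).Adj a b
      · rw [SimpleGraph.fromRel_adj] at h4
        rcases h4.2 with h5 | h5
        · exact Or.inl (Or.inl h5)
        · exact Or.inr (Or.inl h5)
      · rcases lt_or_gt_of_ne h.ne with h5 | h5
        · exact Or.inl (Or.inr ⟨h, h4, h5⟩)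
        · exact Or.inr (Or.inr ⟨h.symm, fun h6 => h4 h6.symm, h5⟩)
  refine ⟨E', fun a b hab => by rw [hE']; exact Or.inl hab, fun a b hab hba => ?_, by rw [hEq]; exact h2,
    by rw [hEq]; exact h3⟩
  rw [hE'] at hab hba
  rcases hab with h | h
  · rcases hba with h' | h'
    · exact hE _ _ h h'
    · exact h'.2.1 (hadj a b h).symm
  · rcases hba with h' | h'
    · exact h.2.1 (hadj b a h').symm
    · exact absurd h.2.2 (lt_asymm h'.2.2)

/-- forests are embedded in large expanding components -/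
theorem big {Δ D n₀ n k : ℕ} [Nonempty (Fin n)] {θ : ℝ} (hD : 2 ≤ D) (hΔ : Δ ≤ D)
    (hS : ∀ k n : ℕ, n₀ ≤ n → k + 1 ≤ n →
    ∀ R : Fin n → Fin n → Prop,
    (∀ a, ¬ R a a) → (∀ a b, a ≠ b → R a b ∨ R b a) → (∀ a b, R a b → ¬ R b a) →
    (∀ S : Set (Fin n), θ * n * (min S.ncard Sᶜ.ncard : ℕ) ≤
      ({p : Fin n × Fin n | p.1 ∈ S ∧ p.2 ∉ S ∧ R p.1 p.2}.ncard : ℝ)) →
    ∀ E : Fin (k + 1) → Fin (k + 1) → Prop,
      (∀ a b, E a b → ¬ E b a) →
      (SimpleGraph.fromRel E).IsTree →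
      (∀ v, ((SimpleGraph.fromRel E).neighborSet v).ncard ≤ D) →
      ∀ (r : Fin (k + 1)) (v : Fin n),
        ∃ f : Fin (k + 1) → Fin n, Function.Injective f ∧ (∀ a b, E a b → R (f a) (f b)) ∧ f r = v)
    {R : Fin n → Fin n → Prop} (h1 : ∀ a, ¬ R a a) (h2 : ∀ a b, a ≠ b → R a b ∨ R b a)
    (h3 : ∀ a b, R a b → ¬ R b a) {E : Fin (k + 1) → Fin (k + 1) → Prop} (hE : ∀ a b, E a b → ¬ E b a)
    (hG : (SimpleGraph.fromRel E).IsAcyclic) (hdeg : ∀ v, ((SimpleGraph.fromRel E).neighborSet v).ncard ≤ Δ)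
    {K : Finset (Fin n)} (hK : n₀ ≤ K.card) (hexp : ∀ S : Set (Fin n), S ⊆ (K : Set (Fin n)) →
      θ * K.card * (min S.ncard ((K : Set (Fin n)) \ S).ncard : ℕ) ≤
        ({p : Fin n × Fin n | p.1 ∈ S ∧ p.2 ∈ (K : Set (Fin n)) \ S ∧ R p.1 p.2}.ncard : ℝ))
    (U : Finset (Fin (k + 1))) (hU : U.card ≤ K.card) : Emb R E U K := by
  rcases U.eq_empty_or_nonempty with rfl | ⟨u₀, hu₀⟩
  · exact ⟨fun _ => Classical.arbitrary _, by simp, by simp, by simp⟩
  obtain ⟨u, hu⟩ : ∃ u, U.card = u + 1 := ⟨U.card - 1, by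
    have := card_pos.2 ⟨u₀, hu₀⟩
    omega⟩
  -- the tree
  obtain ⟨e⟩ : Nonempty (Fin (u + 1) ≃ U) := ⟨(Fintype.equivFinOfCardEq (by simpa using hu)).symm⟩
  obtain ⟨E', hE'⟩ : ∃ E' : Fin (u + 1) → Fin (u + 1) → Prop, E' = fun i j => E (e i) (e j) := ⟨_, rfl⟩
  have hinj : Function.Injective (fun i => ((e i : U) : Fin (k + 1))) :=
    fun i j hij => e.injective (Subtype.ext hij)
  have hhom : ∀ i j, (SimpleGraph.fromRel E').Adj i j → (SimpleGraph.fromRel E).Adj (e i) (e j) := by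
    intro i j hij
    rw [SimpleGraph.fromRel_adj] at hij ⊢
    refine ⟨fun h => hij.1 (hinj h), ?_⟩
    rw [hE'] at hij
    exact hij.2
  have hG' : (SimpleGraph.fromRel E').IsAcyclic :=
    hG.comap ⟨fun i => ((e i : U) : Fin (k + 1)), fun {i j} hij => hhom i j hij⟩ hinj
  have hdeg' : ∀ v, ((SimpleGraph.fromRel E').neighborSet v).ncard ≤ D := by
    intro v
    have h4 : (fun i => ((e i : U) : Fin (k + 1))) '' ((SimpleGraph.fromRel E').neighborSet v) ⊆
        (SimpleGraph.fromRel E).neighborSet (e v) := by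
      rintro _ ⟨i, hi, rfl⟩
      exact hhom v i hi
    have h5 := Set.ncard_le_ncard h4 (Set.toFinite _)
    rw [Set.ncard_image_of_injective _ hinj] at h5
    exact h5.trans ((hdeg _).trans hΔ)
  obtain ⟨E'', e1, e2, e3, e4⟩ := complete_or hD (E := E') (fun a b hab hba => by
    rw [hE'] at hab hba
    exact hE _ _ hab hba) hG' hdeg'
  -- the tournament
  obtain ⟨φ⟩ : Nonempty (Fin K.card ≃ K) := ⟨(Fintype.equivFinOfCardEq (by simp)).symm⟩
  have hφ : Function.Injective (fun i => ((φ i : K) : Fin n)) := fun i j hij => φ.injective (Subtype.ext hij)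
  have hexp' : ∀ S : Set (Fin K.card), θ * K.card * (min S.ncard Sᶜ.ncard : ℕ) ≤
      ({p : Fin K.card × Fin K.card | p.1 ∈ S ∧ p.2 ∉ S ∧ R (φ p.1) (φ p.2)}.ncard : ℝ) := by
    intro S
    obtain ⟨ψ, hψ⟩ : ∃ ψ : Fin K.card → Fin n, ψ = fun i => ((φ i : K) : Fin n) := ⟨_, rfl⟩
    rw [← hψ] at hφ
    have k1 : ψ '' S ⊆ (K : Set (Fin n)) := by
      rintro _ ⟨i, _, rfl⟩
      rw [hψ]
      exact (φ i).2
    have k2 : (K : Set (Fin n)) \ ψ '' S = ψ '' Sᶜ := by
      ext v
      constructor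
      · rintro ⟨hv, hv'⟩
        refine ⟨φ.symm ⟨v, hv⟩, fun h => hv' ⟨_, h, ?_⟩, ?_⟩
        · rw [hψ]
          simp
        · rw [hψ]
          simp
      · rintro ⟨i, hi, rfl⟩
        refine ⟨?_, ?_⟩
        · rw [hψ]
          exact (φ i).2
        · rintro ⟨j, hj, hij⟩
          rw [hφ hij] at hj
          exact hi hj
    have k3 := hexp _ k1
    rw [k2, Set.ncard_image_of_injective _ hφ, Set.ncard_image_of_injective _ hφ] at k3
    refine k3.trans (le_of_eq ?_)
    have k4 : {p : Fin n × Fin n | p.1 ∈ ψ '' S ∧ p.2 ∈ ψ '' Sᶜ ∧ R p.1 p.2} =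
        (fun p : Fin K.card × Fin K.card => (ψ p.1, ψ p.2)) ''
          {p : Fin K.card × Fin K.card | p.1 ∈ S ∧ p.2 ∉ S ∧ R (φ p.1) (φ p.2)} := by
      ext ⟨x, y⟩
      constructor
      · rintro ⟨⟨i, hi, hix⟩, ⟨j, hj, hjy⟩, hR⟩
        dsimp only at hix hjy hR
        subst hix
        subst hjy
        refine ⟨(i, j), ⟨hi, hj, ?_⟩, rfl⟩
        rw [hψ] at hR
        exact hR
      · rintro ⟨⟨i, j⟩, ⟨hi, hj, hR⟩, hij⟩
        rw [Prod.mk.injEq] at hij
        dsimp only at hij hi hj hR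
        obtain ⟨rfl, rfl⟩ := hij
        refine ⟨⟨i, hi, rfl⟩, ⟨j, hj, rfl⟩, ?_⟩
        dsimp only
        rw [hψ]
        exact hR
    rw [k4, Set.ncard_image_of_injective]
    rintro ⟨i, j⟩ ⟨i', j'⟩ h
    rw [Prod.mk.injEq] at h ⊢
    exact ⟨hφ h.1, hφ h.2⟩
  have hKpos : 0 < K.card := by omega
  obtain ⟨f, f1, f2, -⟩ := hS u K.card hK (by omega) (fun i j => R (φ i) (φ j)) (fun a => h1 _)
    (fun a b hab => h2 _ _ (fun h => hab (hφ h))) (fun a b => h3 _ _) hexp' E'' e2 e3 e4 0 ⟨0, hKpos⟩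
  -- the embedding
  have hpos : 0 < n := lt_of_lt_of_le hKpos (by simpa using card_le_univ K)
  refine ⟨fun w => if hw : w ∈ U then ((φ (f (e.symm ⟨w, hw⟩)) : K) : Fin n) else ⟨0, hpos⟩, ?_, ?_, ?_⟩
  · intro w hw
    simp only [dif_pos hw]
    exact (φ _).2
  · intro a ha b hb hab
    rw [mem_coe] at ha hb
    simp only [dif_pos ha, dif_pos hb] at hab
    have h4 := e.symm.injective (f1 (hφ hab))
    exact congrArg Subtype.val h4
  · intro a ha b hb hab
    simp only [dif_pos ha, dif_pos hb]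
    apply f2
    apply e1
    rw [hE']
    simpa using hab

/-- **The main theorem**, from the theorem on spanning trees. -/
theorem main (hS : SpanSt) (Δ : ℕ) (θ : ℝ) (hθ : 0 < θ) : ∃ C : ℕ, ∀ k n : ℕ, ∀ R : Fin n → Fin n → Prop,
    (∀ a, ¬ R a a) → (∀ a b, a ≠ b → R a b ∨ R b a) → (∀ a b, R a b → ¬ R b a) →
    (∀ a : Fin n, ∀ S : Set (Fin n), S ⊆ comp R a →
      θ * (comp R a).ncard * (min S.ncard (comp R a \ S).ncard : ℕ) ≤
      ({p : Fin n × Fin n | p.1 ∈ S ∧ p.2 ∈ comp R a \ S ∧ R p.1 p.2}.ncard : ℝ)) →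
    k + 1 + min C {a : Fin n | 1 < (comp R a).ncard ∧ (comp R a).ncard < C}.ncard ≤ n →
    ∀ E : Fin (k + 1) → Fin (k + 1) → Prop,
      (∀ a b, E a b → ¬ E b a) →
      (SimpleGraph.fromRel E).IsTree →
      (∀ v, ((SimpleGraph.fromRel E).neighborSet v).ncard ≤ Δ) →
      ∀ (r : Fin (k + 1)) (v : Fin n), ∃ f : Fin (k + 1) → Fin n, Function.Injective f ∧
        (∀ a b, E a b → R (f a) (f b)) ∧ (comp R v = Set.univ → C ≤ n → f r = v) := by
  obtain ⟨N, hN⟩ := hS (max Δ 2) θ hθ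
  obtain ⟨L, hL⟩ : ∃ L, L = N * ((N * (N * (Δ + 1) ^ N)) * (N + 1)) := ⟨_, rfl⟩
  refine ⟨max N L, ?_⟩
  intro k n R h1 h2 h3 hexp hn E hE hT hdeg r v
  have hsub : {a : Fin n | 1 < (comp R a).ncard ∧ (comp R a).ncard < N}.ncard ≤
      {a : Fin n | 1 < (comp R a).ncard ∧ (comp R a).ncard < max N L}.ncard := by
    apply Set.ncard_le_ncard _ (Set.toFinite _)
    rintro a ⟨ha1, ha2⟩
    exact ⟨ha1, lt_of_lt_of_le ha2 (le_max_left _ _)⟩
  by_cases hv : comp R v = Set.univ ∧ max N L ≤ n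
  · obtain ⟨hv1, hv2⟩ := hv
    have hexp' := hexp v
    rw [hv1, Set.ncard_univ, Nat.card_fin] at hexp'
    obtain ⟨f, f1, f2, f3⟩ := hN k n ((le_max_left _ _).trans hv2) (by omega) R h1 h2 h3 (fun S => by
      have h4 := hexp' S (Set.subset_univ S)
      rw [← Set.compl_eq_univ_sdiff] at h4
      exact h4) E hE hT (fun v => (hdeg v).trans (le_max_left _ _)) r v
    exact ⟨f, f1, f2, fun _ _ => f3⟩
  · have hne : Nonempty (Fin n) := ⟨v⟩
    have hmain := core (V := Fin n) (W := Fin (k + 1)) (R := R) (E := E) ⟨h1, h2, h3⟩ (lev := lev R)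
      (fun x y h => lev_arc h2 h) (N := N) (Δ := Δ) hE hT.isAcyclic (fun u S hS => ?_) (fun m => ?_) (M := n + 1)
      (fun v => by unfold lev; omega) (n + 1) 0 (by omega) univ ?_
    · obtain ⟨f, f1, f2, f3⟩ := hmain
      refine ⟨f, fun a b hab => f2 (by simp) (by simp) hab, fun a b hab => f3 a (mem_univ a) b (mem_univ b) hab,
        fun h4 h5 => absurd ⟨h4, h5⟩ hv⟩
    · -- out-degrees
      refine le_trans ?_ (hdeg u)
      rw [← Set.ncard_coe_finset]
      apply Set.ncard_le_ncard _ (Set.toFinite _)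
      intro w hw
      have h4 := hS w hw
      rw [SimpleGraph.mem_neighborSet, SimpleGraph.fromRel_adj]
      refine ⟨?_, Or.inl h4⟩
      rintro rfl
      exact hE _ _ h4 h4
    · -- large components
      by_cases hsm : (KK (lev R) m).card < N
      · exact Or.inl hsm
      · right
        rcases (KK (lev R) m).eq_empty_or_nonempty with h0 | ⟨a, ha⟩
        · intro U hU
          rw [h0, card_empty, Nat.le_zero, card_eq_zero] at hU
          subst hU
          exact ⟨fun _ => v, by simp, by simp, by simp⟩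
        · have ham : lev R a = m := by simpa [KK] using ha
          have hK := coe_KK h2 a
          rw [ham] at hK
          have hKc := card_KK h2 a
          rw [ham] at hKc
          refine big (le_max_right Δ 2) (le_max_left Δ 2) hN h1 h2 h3 hE hT.isAcyclic hdeg (not_lt.1 hsm) ?_
          rw [hK, hKc]
          exact hexp a
    · -- the count
      have h4 : (XX (lev R) 0).card = n := by
        unfold XX
        rw [filter_true_of_mem (fun v _ => Nat.zero_le _), card_univ, Fintype.card_fin]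
      have h5 : sm (lev R) N 0 = {a : Fin n | 1 < (comp R a).ncard ∧ (comp R a).ncard < N}.ncard := by
        unfold sm XX
        rw [filter_true_of_mem (fun v _ => Nat.zero_le _), ← Set.ncard_coe_finset]
        congr 1
        ext a
        simp only [coe_filter, mem_univ, true_and, Set.mem_ofPred_eq]
        rw [card_KK h2]
      have h6 := Nat.mul_le_mul_left N (Phi_le (E := E) N (N * (N * (Δ + 1) ^ N)) univ)
      rw [← hL] at h6
      rw [h4, h5, card_univ, Fintype.card_fin]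
      have h7 : L ≤ max N L := le_max_right _ _
      omega

end SPC65
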