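import Pool.Agent.SPC65.Forest

/-!
# The potential of the part of a tree which is not yet embedded

`F` is the set of the vertices of the oriented tree (or forest) which are not yet embedded. The excess is the sum of the
numbers (in-degree in `F` minus one), the free vertices are the ones whose ancestors in `F` form a directed path.
-/

set_option autoImplicit false

namespace SPC65

open Finset Relation
open scoped Classical

variable {W : Type} {E : W → W → Prop}

/-- the in-neighbours in `F` -/
noncomputable def inn (E : W → W → Prop) (F : Finset W) (v : W) : Finset W := F.filter (fun u => E u v)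

/-- the sources of `F` -/
noncomputable def src (E : W → W → Prop) (F : Finset W) : Finset W := F.filter (fun v => inn E F v = ∅)

/-- the excess -/
noncomputable def mu (E : W → W → Prop) (F : Finset W) : ℕ := ∑ v ∈ F, ((inn E F v).card - 1)

/-- the ancestors of the vertex in `F` form a directed path -/
inductive Free (E : W → W → Prop) (F : Finset W) : W → Prop
  | src (v : W) : v ∈ F → inn E F v = ∅ → Free E F v
  | step (u v : W) : v ∈ F → inn E F v = {u} → Free E F u → Free E F v

/-- the set of the free vertices -/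
noncomputable def free (E : W → W → Prop) (F : Finset W) : Finset W := F.filter (Free E F)

/-- the potential -/
noncomputable def Phi (E : W → W → Prop) (N L : ℕ) (F : Finset W) : ℕ :=
  if N ≤ mu E F then L * (N + 1) else L * mu E F + min (free E F).card L

/-- `F'` is an upper part of `F` -/
def Upper (E : W → W → Prop) (F F' : Finset W) : Prop := F' ⊆ F ∧ ∀ v ∈ F, v ∉ F' → ∀ u ∈ F, E u v → u ∉ F'

theorem mem_inn {F : Finset W} {u v : W} : u ∈ inn E F v ↔ u ∈ F ∧ E u v := by simp [inn]

theorem inn_mono {F F' : Finset W} (h : F' ⊆ F) (v : W) : inn E F' v ⊆ inn E F v := by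
  intro u hu
  rw [mem_inn] at hu ⊢
  exact ⟨h hu.1, hu.2⟩

theorem mu_mono {F F' : Finset W} (h : F' ⊆ F) : mu E F' ≤ mu E F := by
  unfold mu
  calc ∑ v ∈ F', ((inn E F' v).card - 1) ≤ ∑ v ∈ F', ((inn E F v).card - 1) :=
        sum_le_sum fun v _ => Nat.sub_le_sub_right (card_le_card (inn_mono h v)) 1
    _ ≤ _ := sum_le_sum_of_subset h

theorem mu_eq {F F' : Finset W} (h : F' ⊆ F) (he : mu E F' = mu E F) :
    (∀ v ∈ F', (inn E F' v).card - 1 = (inn E F v).card - 1) ∧
      ∀ v ∈ F, v ∉ F' → (inn E F v).card - 1 = 0 := by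
  have h1 : ∀ v ∈ F', (inn E F' v).card - 1 ≤ (inn E F v).card - 1 :=
    fun v _ => Nat.sub_le_sub_right (card_le_card (inn_mono h v)) 1
  have h2 : ∑ v ∈ F', ((inn E F' v).card - 1) ≤ ∑ v ∈ F', ((inn E F v).card - 1) := sum_le_sum h1
  have h3 : ∑ v ∈ F', ((inn E F v).card - 1) + ∑ v ∈ F \ F', ((inn E F v).card - 1) = mu E F := by
    unfold mu
    rw [add_comm]
    exact sum_sdiff h
  unfold mu at he h3
  have h4 : ∑ v ∈ F \ F', ((inn E F v).card - 1) = 0 := by omega
  have h5 : ∑ v ∈ F', ((inn E F' v).card - 1) = ∑ v ∈ F', ((inn E F v).card - 1) := by omega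
  refine ⟨(sum_eq_sum_iff_of_le h1).1 h5, fun v hv hv' => ?_⟩
  rw [sum_eq_zero_iff] at h4
  exact h4 v (mem_sdiff.2 ⟨hv, hv'⟩)

theorem free_mono {ht : W → ℕ} (hht : ∀ a b, E a b → ht a < ht b) {F F' : Finset W}
    (h : Upper E F F') (he : mu E F' = mu E F) : free E F' ⊆ free E F := by
  obtain ⟨h1, h2⟩ := mu_eq h.1 he
  -- the vertices of `F \ F'` are free
  have h3 : ∀ m, ∀ v ∈ F, v ∉ F' → ht v = m → Free E F v := by
    intro m
    induction m using Nat.strong_induction_on with
    | _ m ih =>
      intro v hv hv' hm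
      have h4 := h2 v hv hv'
      rcases (inn E F v).eq_empty_or_nonempty with h5 | ⟨u, hu⟩
      · exact Free.src v hv h5
      · have h6 : inn E F v = {u} := by
          apply (eq_of_subset_of_card_le (singleton_subset_iff.2 hu) ?_).symm
          rw [card_singleton]
          omega
        rw [mem_inn] at hu
        exact Free.step u v hv h6 (ih (ht u) (by rw [← hm]; exact hht u v hu.2) u hu.1
          (h.2 v hv hv' u hu.1 hu.2) rfl)
  have h7 : ∀ v ∈ F', (inn E F v).card ≤ 1 ∨ inn E F' v = inn E F v := by
    intro v hv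
    by_cases h8 : (inn E F v).card ≤ 1
    · exact Or.inl h8
    · right
      apply eq_of_subset_of_card_le (inn_mono h.1 v)
      have := h1 v hv
      omega
  have key : ∀ v, Free E F' v → Free E F v := by
    intro v hv
    induction hv with
    | src v hv h0 =>
      rcases h7 v hv with h8 | h8
      · rcases (inn E F v).eq_empty_or_nonempty with h5 | ⟨u, hu⟩
        · exact Free.src v (h.1 hv) h5
        · have h6 : inn E F v = {u} := by
            apply (eq_of_subset_of_card_le (singleton_subset_iff.2 hu) ?_).symm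
            rw [card_singleton]
            omega
          rw [mem_inn] at hu
          have h9 : u ∉ F' := by
            intro h10
            have : u ∈ inn E F' v := mem_inn.2 ⟨h10, hu.2⟩
            rw [h0] at this
            exact absurd this (notMem_empty u)
          exact Free.step u v (h.1 hv) h6 (h3 _ u hu.1 h9 rfl)
      · rw [h8] at h0
        exact Free.src v (h.1 hv) h0
    | step u v hv h0 _ ih =>
      have hu : u ∈ inn E F' v := by rw [h0]; exact mem_singleton_self u
      rcases h7 v hv with h8 | h8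
      · have h6 : inn E F v = {u} := by
          apply (eq_of_subset_of_card_le (singleton_subset_iff.2 (inn_mono h.1 v hu)) ?_).symm
          rw [card_singleton]
          exact h8
        exact Free.step u v (h.1 hv) h6 ih
      · rw [h8] at h0
        exact Free.step u v (h.1 hv) h0 ih
  intro v hv
  unfold free at hv ⊢
  rw [mem_filter] at hv ⊢
  exact ⟨h.1 hv.1, key v hv.2⟩

theorem Phi_le (N L : ℕ) (F : Finset W) : Phi E N L F ≤ L * (N + 1) := by
  unfold Phi
  split_ifs with h
  · exact le_rfl
  · have h1 : mu E F + 1 ≤ N := by omega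
    have h2 : L * (mu E F + 1) ≤ L * N := Nat.mul_le_mul_left L h1
    have h3 := min_le_right (free E F).card L
    rw [Nat.mul_add, Nat.mul_one] at h2 ⊢
    omega

theorem Phi_mono {ht : W → ℕ} (hht : ∀ a b, E a b → ht a < ht b) {N L : ℕ} {F F' : Finset W}
    (h : Upper E F F') : Phi E N L F' ≤ Phi E N L F := by
  have h1 := mu_mono (E := E) h.1
  by_cases h2 : N ≤ mu E F
  · refine (Phi_le N L F').trans (le_of_eq ?_)
    unfold Phi
    rw [if_pos h2]
  · have h3 : ¬ N ≤ mu E F' := by omega
    unfold Phi
    rw [if_neg h2, if_neg h3]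
    rcases h1.eq_or_lt with h4 | h4
    · rw [h4]
      apply Nat.add_le_add_left
      exact min_le_min_right L (card_le_card (free_mono hht h h4))
    · have h5 : L * (mu E F' + 1) ≤ L * mu E F := Nat.mul_le_mul_left L h4
      have h6 := min_le_right (free E F').card L
      rw [Nat.mul_add, Nat.mul_one] at h5
      omega

theorem upper_erase {F : Finset W} {u : W} (hu : u ∈ src E F) : Upper E F (F.erase u) := by
  refine ⟨erase_subset u F, fun v hv hv' w hw hwv => ?_⟩
  have hvu : v = u := by
    by_contra h
    exact hv' (mem_erase.2 ⟨h, hv⟩)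
  subst hvu
  unfold src at hu
  rw [mem_filter] at hu
  have : w ∈ inn E F v := mem_inn.2 ⟨hw, hwv⟩
  rw [hu.2] at this
  exact absurd this (notMem_empty w)

theorem Phi_erase {ht : W → ℕ} (hht : ∀ a b, E a b → ht a < ht b) {N L : ℕ} {F : Finset W}
    (h1 : mu E F < N) (h2 : (free E F).card ≤ L) {u : W} (hu : u ∈ src E F) :
    Phi E N L (F.erase u) + 1 ≤ Phi E N L F := by
  have hU := upper_erase hu
  have h3 := mu_mono (E := E) hU.1
  have hu' : u ∈ F ∧ inn E F u = ∅ := by
    unfold src at hu
    rwa [mem_filter] at hu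
  have h4 : u ∈ free E F := by
    unfold free
    rw [mem_filter]
    exact ⟨hu'.1, Free.src u hu'.1 hu'.2⟩
  have h5 : 1 ≤ (free E F).card := card_pos.2 ⟨u, h4⟩
  unfold Phi
  rw [if_neg (by omega), if_neg (by omega)]
  rcases h3.eq_or_lt with h6 | h6
  · rw [h6]
    have h7 : free E (F.erase u) ⊆ (free E F).erase u := by
      intro v hv
      rw [mem_erase]
      refine ⟨?_, free_mono hht hU h6 hv⟩
      unfold free at hv
      rw [mem_filter, mem_erase] at hv
      exact hv.1.1
    have h8 := card_le_card h7
    rw [card_erase_of_mem h4] at h8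
    omega
  · have h7 : L * (mu E (F.erase u) + 1) ≤ L * mu E F := Nat.mul_le_mul_left L h6
    have h8 := min_le_right (free E (F.erase u)).card L
    rw [Nat.mul_add, Nat.mul_one] at h7
    omega

/-- in a forest the excess is smaller than the number of sources -/
theorem mu_lt (hE : ∀ a b, E a b → ¬ E b a) (hG : (SimpleGraph.fromRel E).IsAcyclic)
    {F : Finset W} (hF : F.Nonempty) : mu E F + 1 ≤ (src E F).card := by
  have h1 := arcs_lt hE hG hF
  have h2 : ∑ v ∈ F, (inn E F v).card + (src E F).card = F.card + mu E F := by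
    unfold src mu
    rw [card_filter, ← sum_add_distrib, card_eq_sum_ones, ← sum_add_distrib]
    refine sum_congr rfl fun v _ => ?_
    by_cases h : inn E F v = ∅
    · rw [if_pos h, h, card_empty]
    · rw [if_neg h]
      have : 0 < (inn E F v).card := card_pos.2 (nonempty_iff_ne_empty.2 h)
      omega
  have h3 : ∑ v ∈ F, (inn E F v).card = ∑ v ∈ F, (F.filter (fun u => E u v)).card := rfl
  omega

/-- the free vertices with `j` ancestors -/
noncomputable def lv (E : W → W → Prop) (F : Finset W) : ℕ → Finset W
  | 0 => src E F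
  | j + 1 => F.filter (fun v => ∃ u ∈ lv E F j, inn E F v = {u})

theorem free_lv {F : Finset W} {v : W} (h : Free E F v) : ∃ j, v ∈ lv E F j := by
  induction h with
  | src v hv h0 => exact ⟨0, by unfold lv src; rw [mem_filter]; exact ⟨hv, h0⟩⟩
  | step u v hv h0 _ ih =>
    obtain ⟨j, hj⟩ := ih
    exact ⟨j + 1, by rw [lv, mem_filter]; exact ⟨hv, u, hj, h0⟩⟩

theorem lv_card {F : Finset W} {Δ : ℕ} (hout : ∀ u, ∀ S : Finset W, (∀ v ∈ S, E u v) → S.card ≤ Δ) (j : ℕ) :
    (lv E F j).card ≤ (src E F).card * Δ ^ j := by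
  induction j with
  | zero => simp [lv]
  | succ j ih =>
    have h1 : lv E F (j + 1) ⊆ (lv E F j).biUnion (fun u => F.filter (fun v => E u v)) := by
      intro v hv
      rw [lv, mem_filter] at hv
      obtain ⟨hv1, u, hu, h2⟩ := hv
      rw [mem_biUnion]
      refine ⟨u, hu, ?_⟩
      rw [mem_filter]
      have : u ∈ inn E F v := by rw [h2]; exact mem_singleton_self u
      exact ⟨hv1, (mem_inn.1 this).2⟩
    refine (card_le_card h1).trans (card_biUnion_le.trans ?_)
    calc ∑ u ∈ lv E F j, (F.filter (fun v => E u v)).card ≤ ∑ _u ∈ lv E F j, Δ :=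
          sum_le_sum fun u _ => hout u _ (fun v hv => (mem_filter.1 hv).2)
      _ = (lv E F j).card * Δ := by rw [sum_const, smul_eq_mul]
      _ ≤ (src E F).card * Δ ^ j * Δ := Nat.mul_le_mul_right Δ ih
      _ = _ := by rw [pow_succ, mul_assoc]

theorem lv_chain {F : Finset W} (j : ℕ) : ∀ v ∈ lv E F j, ∃ c : ℕ → W, c j = v ∧ (∀ i ≤ j, c i ∈ F) ∧
    inn E F (c 0) = ∅ ∧ ∀ i < j, inn E F (c (i + 1)) = {c i} := by
  induction j with
  | zero =>
    intro v hv
    unfold lv src at hv
    rw [mem_filter] at hv
    exact ⟨fun _ => v, rfl, fun _ _ => hv.1, hv.2, fun i hi => absurd hi (Nat.not_lt_zero i)⟩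
  | succ j ih =>
    intro v hv
    rw [lv, mem_filter] at hv
    obtain ⟨hv1, u, hu, h2⟩ := hv
    obtain ⟨c, hc1, hc2, hc3, hc4⟩ := ih u hu
    refine ⟨fun i => if i ≤ j then c i else v, ?_, fun i hi => ?_, ?_, fun i hi => ?_⟩
    · simp
    · by_cases h : i ≤ j
      · simp only [if_pos h]
        exact hc2 i h
      · simp only [if_neg h]
        exact hv1
    · simp only [if_pos (Nat.zero_le j)]
      exact hc3
    · by_cases h : i + 1 ≤ j
      · simp only [if_pos h, if_pos (Nat.le_of_succ_le h)]
        exact hc4 i h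
      · have h3 : i = j := by omega
        subst h3
        simp only [if_neg h, if_pos (le_refl i)]
        rw [hc1]
        exact h2

/-- either a free directed path with `h` vertices, or few free vertices -/
theorem path_or {F : Finset W} {Δ N h : ℕ} (hout : ∀ u, ∀ S : Finset W, (∀ v ∈ S, E u v) → S.card ≤ Δ)
    (hh : 0 < h) (hN : h ≤ N) (hs : (src E F).card ≤ N) :
    (∃ c : ℕ → W, (∀ i < h, c i ∈ F) ∧ inn E F (c 0) = ∅ ∧ ∀ i, i + 1 < h → inn E F (c (i + 1)) = {c i}) ∨
      (free E F).card ≤ N * (N * (Δ + 1) ^ N) := by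
  rcases (lv E F (h - 1)).eq_empty_or_nonempty with he | ⟨v, hv⟩
  · right
    have h1 : ∀ j, lv E F (h - 1 + j) = ∅ := by
      intro j
      induction j with
      | zero => exact he
      | succ j ih =>
        rw [← Nat.add_assoc, lv, filter_eq_empty_iff]
        rintro v _ ⟨u, hu, _⟩
        rw [ih] at hu
        exact absurd hu (notMem_empty u)
    have h2 : free E F ⊆ (range (h - 1)).biUnion (lv E F) := by
      intro v hv
      unfold free at hv
      rw [mem_filter] at hv
      obtain ⟨j, hj⟩ := free_lv hv.2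
      rw [mem_biUnion]
      refine ⟨j, ?_, hj⟩
      rw [mem_range]
      by_contra h3
      have h4 := h1 (j - (h - 1))
      rw [Nat.add_sub_cancel' (not_lt.1 h3)] at h4
      rw [h4] at hj
      exact absurd hj (notMem_empty v)
    refine (card_le_card h2).trans (card_biUnion_le.trans ?_)
    have h5 : ∀ j ∈ range (h - 1), (lv E F j).card ≤ N * (Δ + 1) ^ N := by
      intro j hj
      rw [mem_range] at hj
      refine (lv_card hout j).trans (Nat.mul_le_mul hs ?_)
      exact (Nat.pow_le_pow_left (Nat.le_succ Δ) j).trans (Nat.pow_le_pow_right (Nat.succ_pos Δ) (by omega))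
    refine (sum_le_sum h5).trans ?_
    rw [sum_const, card_range, smul_eq_mul]
    exact Nat.mul_le_mul_right _ (by omega)
  · left
    obtain ⟨c, -, hc2, hc3, hc4⟩ := lv_chain (h - 1) v hv
    exact ⟨c, fun i hi => hc2 i (by omega), hc3, fun i hi => hc4 i (by omega)⟩

end SPC65
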